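import Pool.Agent.Helper93.GL.F03

/-!
Swarm `GL`, part F05: tangent discs are holomorphic discs of the leaf.
-/

set_option autoImplicit false

open Metric Set Filter Topology

namespace Pool.GL.H28

open Pool.GL

/-- a speed function for a tangent disc near a point where a coordinate of the field is nonzero -/
lemma speed (F : Fld) (c : ℂ → ℂ × ℂ) (hc : F.TanD c) (t₀ : ℂ) (ht₀ : t₀ ∈ ball (0 : ℂ) 1) :
    ∃ (ε : ℝ) (b : ℂ → ℂ), 0 < ε ∧ ball t₀ ε ⊆ ball (0 : ℂ) 1 ∧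
      DifferentiableOn ℂ b (ball t₀ ε) ∧
      ∀ t ∈ ball t₀ ε, HasDerivAt c (b t • F.W (c t)) t := by
  obtain ⟨hdc, hW⟩ := hc
  have hW0 := (hW t₀ ht₀).1
  have hcW : ContinuousOn (fun t => F.W (c t)) (ball (0 : ℂ) 1) :=
    (H93.continuous_W F).comp_continuousOn hdc.continuousOn
  have hdW : DifferentiableOn ℂ (fun t => F.W (c t)) (ball (0 : ℂ) 1) := by
    have h1 : Differentiable ℂ F.W := (H93.contDiff_W F).differentiable (by norm_num)
    exact h1.comp_differentiableOn hdc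
  have hdd : DifferentiableOn ℂ (deriv c) (ball (0 : ℂ) 1) := hdc.deriv isOpen_ball
  have hcd : ∀ t ∈ ball (0 : ℂ) 1, HasDerivAt c (deriv c t) t := fun t ht =>
    (hdc.differentiableAt (isOpen_ball.mem_nhds ht)).hasDerivAt
  have hor : (F.W (c t₀)).1 ≠ 0 ∨ (F.W (c t₀)).2 ≠ 0 := by
    by_contra h
    push Not at h
    exact hW0 (Prod.ext h.1 h.2)
  rcases hor with h | h
  · have hcont : ContinuousAt (fun t => (F.W (c t)).1) t₀ :=
      (continuous_fst.comp_continuousOn hcW).continuousAt (isOpen_ball.mem_nhds ht₀)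
    have hev : ∀ᶠ t in 𝓝 t₀, (F.W (c t)).1 ≠ 0 ∧ t ∈ ball (0 : ℂ) 1 :=
      (hcont.eventually_ne h).and (isOpen_ball.mem_nhds ht₀)
    obtain ⟨ε, hε, hball⟩ := Metric.eventually_nhds_iff_ball.mp hev
    refine ⟨ε, fun t => (deriv c t).1 / (F.W (c t)).1, hε, fun t ht => (hball t ht).2, ?_, ?_⟩
    · have hsub : ball t₀ ε ⊆ ball (0 : ℂ) 1 := fun t ht => (hball t ht).2
      exact (hdd.mono hsub).fst.div (hdW.mono hsub).fst (fun t ht => (hball t ht).1)
    · intro t ht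
      obtain ⟨hne, ht1⟩ := hball t ht
      obtain ⟨b, hb⟩ := (hW t ht1).2
      have : (deriv c t).1 / (F.W (c t)).1 = b := by
        rw [hb]
        simp only [Prod.smul_fst, smul_eq_mul]
        field_simp
      show HasDerivAt c (_ • F.W (c t)) t
      beta_reduce
      rw [this, ← hb]
      exact hcd t ht1
  · have hcont : ContinuousAt (fun t => (F.W (c t)).2) t₀ :=
      (continuous_snd.comp_continuousOn hcW).continuousAt (isOpen_ball.mem_nhds ht₀)
    have hev : ∀ᶠ t in 𝓝 t₀, (F.W (c t)).2 ≠ 0 ∧ t ∈ ball (0 : ℂ) 1 :=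
      (hcont.eventually_ne h).and (isOpen_ball.mem_nhds ht₀)
    obtain ⟨ε, hε, hball⟩ := Metric.eventually_nhds_iff_ball.mp hev
    refine ⟨ε, fun t => (deriv c t).2 / (F.W (c t)).2, hε, fun t ht => (hball t ht).2, ?_, ?_⟩
    · have hsub : ball t₀ ε ⊆ ball (0 : ℂ) 1 := fun t ht => (hball t ht).2
      exact (hdd.mono hsub).snd.div (hdW.mono hsub).snd (fun t ht => (hball t ht).1)
    · intro t ht
      obtain ⟨hne, ht1⟩ := hball t ht
      obtain ⟨b, hb⟩ := (hW t ht1).2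
      have : (deriv c t).2 / (F.W (c t)).2 = b := by
        rw [hb]
        simp only [Prod.smul_snd, smul_eq_mul]
        field_simp
      show HasDerivAt c (_ • F.W (c t)) t
      beta_reduce
      rw [this, ← hb]
      exact hcd t ht1

theorem LEAFHOL (hU : S_UNIQ) : S_LEAFHOL := by
  intro F p T hp hT c c' hc hcc' t₀ ht₀
  obtain ⟨ε₁, b, hε₁, hsub, hdb, hcb⟩ := speed F c hc t₀ ht₀
  obtain ⟨τ, hτ0, hτ⟩ := hdb.isExactOn_ball.with_val_at t₀ 0
  have hrho := T.rho_pos (c' t₀)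
  have hτc : ContinuousAt τ t₀ := (hτ t₀ (mem_ball_self hε₁)).continuousAt
  have hev : ∀ᶠ t in 𝓝 t₀, ‖τ t‖ < T.rho (c' t₀) := by
    have : Tendsto (fun t => ‖τ t‖) (𝓝 t₀) (𝓝 ‖τ t₀‖) := hτc.norm
    rw [hτ0, norm_zero] at this
    exact this.eventually_lt_const hrho
  obtain ⟨ε₂, hε₂, hball⟩ := Metric.eventually_nhds_iff_ball.mp hev
  have hε : 0 < min ε₁ ε₂ := lt_min hε₁ hε₂
  have hs1 : ball t₀ (min ε₁ ε₂) ⊆ ball t₀ ε₁ := ball_subset_ball (min_le_left _ _)
  have hs2 : ball t₀ (min ε₁ ε₂) ⊆ ball t₀ ε₂ := ball_subset_ball (min_le_right _ _)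
  refine ⟨min ε₁ ε₂, hε, τ, fun t ht => ((hτ t (hs1 ht)).differentiableAt).differentiableWithinAt,
    fun t ht => ⟨hball t (hs2 ht), ?_⟩⟩
  -- the segment from t₀ to t
  set seg : ℝ → ℂ := fun θ => t₀ + (θ : ℂ) * (t - t₀) with hseg
  have hsegm : ∀ θ ∈ Icc (0 : ℝ) 1, seg θ ∈ ball t₀ (min ε₁ ε₂) := by
    intro θ hθ
    rw [mem_ball, dist_eq_norm]
    have e : seg θ - t₀ = (θ : ℂ) * (t - t₀) := by simp [hseg]
    rw [e, norm_mul, Complex.norm_real, Real.norm_of_nonneg hθ.1]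
    have h1 : ‖t - t₀‖ < min ε₁ ε₂ := by
      rw [← dist_eq_norm]; exact ht
    calc θ * ‖t - t₀‖ ≤ 1 * ‖t - t₀‖ := by gcongr; exact hθ.2
      _ < min ε₁ ε₂ := by rw [one_mul]; exact h1
  have hsegd : ∀ θ : ℝ, HasDerivAt seg (t - t₀) θ := by
    intro θ
    have h1 : HasDerivAt (fun θ : ℝ => (θ : ℂ)) 1 θ := Complex.ofRealCLM.hasDerivAt (x := θ)
    have h2 := (h1.mul_const (t - t₀)).const_add t₀
    rw [one_mul] at h2
    exact h2
  have hsegc : Continuous seg := by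
    rw [hseg]; fun_prop
  set φ : ℂ → ℂ × ℂ := fun t => ((T.Phi (c' t₀) t : {q : ℂ × ℂ // F.Lf p q}) : ℂ × ℂ) with hφ
  have hφi : F.IsInt φ (T.rho (c' t₀)) := hT.int (c' t₀)
  have hφ0 : φ 0 = c t₀ := by
    rw [hφ]
    simp only [T.Phi_zero]
    exact hcc' t₀ ht₀
  have key := hU univ F.W isOpen_univ (H93.contDiff_W F).contDiffOn
    (fun θ => (t - t₀) * b (seg θ)) (fun θ => c (seg θ)) (fun θ => φ (τ (seg θ))) 1 zero_le_one
    ?_ ?_ ?_ 1 ⟨zero_le_one, le_rfl⟩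
  · have hseg1 : seg 1 = t := by simp [hseg]
    have hk : c t = φ (τ t) := by
      have := key
      simp only [hseg1] at this
      exact this
    apply Subtype.ext
    rw [hcc' t (hsub (hs1 ht)), hk]
  · refine continuousOn_const.mul ?_
    exact hdb.continuousOn.comp hsegc.continuousOn (fun θ hθ => hs1 (hsegm θ hθ))
  · intro θ hθ
    refine ⟨mem_univ _, mem_univ _, ?_, ?_⟩
    · have h1 := hcb (seg θ) (hs1 (hsegm θ hθ))
      have h2 := HasDerivAt.scomp θ h1 (hsegd θ)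
      rw [smul_smul] at h2
      exact h2.hasDerivWithinAt
    · have h0 := hball _ (hs2 (hsegm θ hθ))
      have h1 := hφi (τ (seg θ)) (by rw [mem_ball, dist_zero_right]; exact h0)
      have h2 := hτ (seg θ) (hs1 (hsegm θ hθ))
      have h3 := HasDerivAt.scomp (seg θ) h1 h2
      have h4 := HasDerivAt.scomp θ h3 (hsegd θ)
      rw [smul_smul] at h4
      exact h4.hasDerivWithinAt
  · have hseg0 : seg 0 = t₀ := by simp [hseg]
    simp only [hseg0, hτ0, hφ0]

end Pool.GL.H28
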